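import Pool.Agent.H21.TP

namespace Pool.Agent.Results.MP_d69fce_al.Q1Yes

open Pool.Agent.H21.TP

theorem result : ∃ (L : Type) (_ : LieRing L) (_ : LieAlgebra ℂ L),
    (∀ m : L →ₗ[ℂ] L →ₗ[ℂ] L, IsTP (fun x y : L => ⁅x, y⁆) m → m = 0) ∧
    ∃ ω : L →ₗ[ℂ] L →ₗ[ℂ] ℂ, NontrivCocycle ω ∧
      ∃ m : (L × ℂ) →ₗ[ℂ] (L × ℂ) →ₗ[ℂ] (L × ℂ), IsTP (ext ω) m ∧ m ≠ 0 := by
  refine ⟨L, inferInstance, inferInstance, fun m ⟨h1, _, h3⟩ => ?_, ω0, coc,
    LinearMap.mk₂ ℂ (fun p q => (0, tr p * tr q)) (by simp [add_mul]) (by simp [mul_assoc]) (by simp [mul_add])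
      (by simp [mul_left_comm]), ⟨fun x y => by simp [mul_comm], fun x y z => by simp [tr_c], fun x y z => by
        simp [tr_ext, ext_c]⟩, fun h => by simpa [tr_e] using congr(($h e0 e0).2)⟩
  choose c hc using fun z : L => half (φ := m z) fun x y : L =>
    (show m z ⁅x, y⁆ = (1 / 2 : ℂ) • (⁅m z x, y⁆ + ⁅x, m z y⁆) by rw [← h3 x y z, smul_smul]; norm_num)
  have k (z x : Fin 8 → ℂ) (i) : c z * x i = c x * z i :=
    congr($((congr($(hc z) x)).symm.trans ((h1 z x).trans congr($(hc x) z))) i)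
  refine LinearMap.ext fun z => (hc z).trans ?_
  have a := k z (Pi.single 0 1) 0; have b := k (Pi.single 0 1) (Pi.single 1 1) 1
  simp at a b
  rw [a, b, zero_mul, zero_smul]; rfl

end Pool.Agent.Results.MP_d69fce_al.Q1Yes
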