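import Pool.Agent.H21.TP

namespace Pool.Agent.Results.MP_d69fce_al.Q2Yes

open Pool.Agent.H21.TP

theorem result : ∃ (L : Type) (_ : LieRing L) (_ : LieAlgebra ℂ L),
    (∀ φ : L →ₗ[ℂ] L, IsHalf (fun x y : L => ⁅x, y⁆) φ → ∃ c : ℂ, φ = c • LinearMap.id) ∧
    ∃ ω : L →ₗ[ℂ] L →ₗ[ℂ] ℂ, NontrivCocycle ω ∧
      ∃ φ : (L × ℂ) →ₗ[ℂ] (L × ℂ), IsHalf (ext ω) φ ∧ ¬∃ c : ℂ, φ = c • LinearMap.id := by
  refine ⟨L, inferInstance, inferInstance, fun _ h => half h, ω0, coc, LinearMap.inr ℂ _ _ ∘ₗ tr,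
    fun x y => by simp [tr_ext, ext_c], fun ⟨c, h⟩ => ?_⟩
  simpa [tr_e, show e0.2 = 0 from rfl] using congr(($h e0).2)

end Pool.Agent.Results.MP_d69fce_al.Q2Yes
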